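import Pool.Agent.H193R5.EG.Seq
import Pool.Agent.H193R5.EG.TaskANI
import Pool.Agent.H193R5.EG.TaskSTDP
import Pool.Agent.H193R5.EG.TaskSUB
import Pool.Agent.H790.EG.TaskRONE
import Pool.Agent.H747R3.EG.TaskRTWO
import Pool.Agent.H510R3.EG.TaskKELP
import Pool.Agent.H68R3.EG.TaskLEMM
import Pool.Agent.H87R3.EG.TaskFORM

/-!
# Degree growth under compositions of plane Keller maps which are not automorphisms

Assembly of the parts of the starting library (`Pool/Agent/H193R5/EG` and the files of its tasks),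
and a criterion: a pair of polynomials with constant nonzero bracket whose first component has the
Newton polygon of a proper trapezoid does not generate the polynomial ring.
-/

set_option autoImplicit false

open MvPolynomial Pool.Agent.H88R2.DC Pool.Agent.H193R5.EG

namespace Pool.Agent.Helper488EG

section

variable {K : Type} [Field K] [CharZero K]

theorem pbL_ap (u v : MvPolynomial (Fin 2) K) : pbL K u v = pb u v := STDPaux.pbL_apply u v

/-- the chain rule for the bracket -/
theorem pb_comp (σ : MvPolynomial (Fin 2) K →ₐ[K] MvPolynomial (Fin 2) K) {κ : K}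
    (h : pb (σ (X 0)) (σ (X 1)) = C κ) (u v : MvPolynomial (Fin 2) K) :
    pb (σ u) (σ v) = κ • σ (pb u v) := by
  rw [smul_eq_C_mul]
  unfold pb at h ⊢
  rw [STDPaux.chain σ 0 u, STDPaux.chain σ 1 u, STDPaux.chain σ 0 v, STDPaux.chain σ 1 v,
    map_sub, map_mul, map_mul]
  linear_combination (σ (pderiv 0 u) * σ (pderiv 1 v) - σ (pderiv 1 u) * σ (pderiv 0 v)) * h

theorem endo_of (σ : MvPolynomial (Fin 2) K →ₐ[K] MvPolynomial (Fin 2) K) {κ : K} (hκ : κ ≠ 0)
    (h : pb (σ (X 0)) (σ (X 1)) = C κ) : Endo (pbL K) σ := by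
  refine ⟨?_, κ, hκ, fun u v => ?_⟩
  · rw [injective_iff_map_eq_zero]
    exact fun f hf => Pool.Agent.H510R3.EG.inj σ κ hκ h f hf
  · rw [pbL_ap, pbL_ap]
    exact pb_comp σ h u v

theorem kel : Kel (pbL K) := by
  intro σ hσ hb
  obtain ⟨κ, hκ, h⟩ := hσ.comp
  have h1 := h (X 0) (X 1)
  rw [pbL_ap, pbL_ap] at h1
  have h2 : pb (X 0 : MvPolynomial (Fin 2) K) (X 1) = 1 := by
    unfold pb
    simp [pderiv_X]
  rw [h2, map_one, smul_eq_C_mul, mul_one] at h1
  exact Pool.Agent.H510R3.EG.kelp_holds K σ κ hκ h1 hb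

theorem one_br (v : MvPolynomial (Fin 2) K) : pbL K 1 v = 0 := by
  rw [pbL_ap]
  unfold pb
  simp

/-- **growth** -/
theorem growth (k : ℕ) (Φ : MvPolynomial (Fin 2) K →ₐ[K] MvPolynomial (Fin 2) K)
    (hΦ : Chain (pbL K) k Φ) (a : MvPolynomial (Fin 2) K) (ha : ∀ c : K, a ≠ C c) :
    2 ^ k ≤ 18 * (Φ a).totalDegree ^ 2 :=
  growth_all Pool.Agent.H68R3.EG.lemm_holds sub_holds Pool.Agent.H87R3.EG.form_holds
    Pool.Agent.H790.EG.rone_holds Pool.Agent.H747R3.EG.rtwo_holds ani_holds (stdp_holds K) one_br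
    kel k Φ hΦ a ha _ (exists_bound (LinearEquiv.refl K (MvPolynomial (Fin 2) K)) (Φ a))

/-- the derivation `pb x` is locally nilpotent -/
theorem nil (l : ℕ) : ∀ v ∈ FilS (LinearEquiv.refl K (MvPolynomial (Fin 2) K)) (fun _ => 1) l,
    (pbL K (X 0))^[l + 1] v = 0 := by
  have hx : (X 0 : MvPolynomial (Fin 2) K) ∈
      FilS (LinearEquiv.refl K (MvPolynomial (Fin 2) K)) (fun _ => 1) 1 := by
    have := exists_bound (LinearEquiv.refl K (MvPolynomial (Fin 2) K)) (X 0)
    rwa [LinearEquiv.refl_apply, totalDegree_X] at this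
  induction l with
  | zero =>
    intro v hv
    exact (stdp_holds K).sys.br_zero (fun _ => 1) (fun _ => one_pos) 1 0 (by norm_num) _ _ hx hv
  | succ l ih =>
    intro v hv
    rw [Function.iterate_succ_apply]
    apply ih
    exact ((stdp_holds K).sys.br_top (fun _ => 1) (fun _ => one_pos) 1 (l + 1) l (by omega) _ _ hx
      hv).1

/-- an element with a non-torsion partner is not the image of `x` under an automorphism -/
theorem not_surj {σ : MvPolynomial (Fin 2) K →ₐ[K] MvPolynomial (Fin 2) K} {κ : K}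
    (h : pb (σ (X 0)) (σ (X 1)) = C κ) (hnt : NT (pbL K) (σ (X 0))) :
    ¬ Function.Surjective σ := by
  intro hs
  obtain ⟨u, hu⟩ := hnt
  obtain ⟨v, rfl⟩ := hs u
  have hk : ∀ k : ℕ, (pbL K (σ (X 0)))^[k] (σ v) = κ ^ k • σ ((pbL K (X 0))^[k] v) := by
    intro k
    induction k with
    | zero => simp
    | succ k ih =>
      rw [Function.iterate_succ_apply', Function.iterate_succ_apply', ih, map_smul, pbL_ap,
        pb_comp σ h, smul_smul, ← pow_succ, pbL_ap]
  set N := v.totalDegree with hN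
  have hz := nil N v (exists_bound (LinearEquiv.refl K (MvPolynomial (Fin 2) K)) v)
  have h1 := hk (N + 1)
  rw [hz, map_zero, smul_zero] at h1
  have h2 := hu (Finsupp.single (0, 0, N + 1) 1) (by
    rw [Finsupp.sum_single_index (by simp)]
    simp only [pow_zero, one_mul, one_smul]
    exact h1)
  exact one_ne_zero ((Finsupp.single_eq_zero).1 h2)

/-- divisibility by powers of `x` -/
theorem X_pow_dvd {T : MvPolynomial (Fin 2) K} {m : ℕ} :
    X 0 ^ m ∣ T ↔ ∀ d, coeff d T ≠ 0 → m ≤ d 0 := by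
  have e : (X 0 : MvPolynomial (Fin 2) K) ^ m = monomial (Finsupp.single 0 m) 1 :=
    X_pow_eq_monomial
  rw [e]
  constructor
  · rintro ⟨S, rfl⟩ d hd
    by_contra hlt
    apply hd
    rw [coeff_monomial_mul', if_neg]
    intro hle
    have := hle 0
    simp at this
    omega
  · intro h
    rw [monomial_one_dvd_iff_modMonomial_eq_zero]
    ext d
    rw [coeff_zero]
    by_cases hd : Finsupp.single 0 m ≤ d
    · exact coeff_modMonomial_of_le _ hd
    · rw [coeff_modMonomial_of_not_le _ hd]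
      by_contra hne
      apply hd
      rw [Finsupp.single_le_iff]
      exact h d hne

/-- trapezoids -/
theorem nt_of_trapezoid {F : MvPolynomial (Fin 2) K} {m n : ℕ} (hm : 0 < m) (hmn : m < n)
    (h1 : ∀ d, coeff d F ≠ 0 → d 1 ≤ n ∧ d 0 + d 1 ≤ m + n)
    (h2 : coeff (Finsupp.single 0 m + Finsupp.single 1 n) F ≠ 0) : NT (pbL K) F := by
  have hwt : ∀ d : Fin 2 →₀ ℕ, Finsupp.weight (fun _ : Fin 2 => 1) d = d 0 + d 1 := by
    intro d
    rw [STDPaux.weight_two]
    simp
  have hT : ∀ d, coeff d (weightedHomogeneousComponent (fun _ : Fin 2 => 1) (m + n) F) =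
      if d 0 + d 1 = m + n then coeff d F else 0 := by
    intro d
    rw [coeff_weightedHomogeneousComponent, hwt]
  refine Pool.Agent.H68R3.EG.lemm_holds K _ (LinearEquiv.refl K (MvPolynomial (Fin 2) K)) (pbL K)
    (stdp_holds K).sys (fun _ => 1) (fun _ => one_pos) F (m + n) ?_ (X 0) ?_ m hm ?_ ?_ ?_
  · refine mem_fil.2 fun d hd => ?_
    have := (h1 d (mem_support_iff.1 hd)).2
    simpa using this
  · exact (MvPolynomial.X_prime).irreducible
  · rw [X_pow_dvd]
    intro d hd
    change coeff d (weightedHomogeneousComponent (fun _ : Fin 2 => 1) (m + n) F) ≠ 0 at hd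
    rw [hT] at hd
    split_ifs at hd with h3
    · have := h1 d hd
      omega
    · exact absurd rfl hd
  · rw [X_pow_dvd]
    intro hcon
    have := hcon (Finsupp.single 0 m + Finsupp.single 1 n) (by
      change coeff _ (weightedHomogeneousComponent (fun _ : Fin 2 => 1) (m + n) F) ≠ 0
      rw [hT, if_pos (by simp)]
      exact h2)
    simp at this
  · omega

end

end Pool.Agent.Helper488EG
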